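import Mathlib
import Pool.Agent.H984R2.ColDefs
import Pool.Agent.H984R2.ColE
import Pool.Agent.H984R2.ColF

set_option autoImplicit false

/-!
# The mixing time of Glauber dynamics for proper colourings is not monotone in `q`

For every bound `D` on the maximum degree, monotonicity in `q` of the mixing time fails for every
sufficiently large graph of maximum degree at most `D`.
-/

namespace Pool.Agent.Results.MP_a221c1_pr.NotMonotone

open Pool.Agent.H984R2.Col Filter

theorem nb_card {V : Type} [Fintype V] [DecidableEq V] (G : SimpleGraph V) [DecidableRel G.Adj]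
    {D : ℕ} (h : G.maxDegree ≤ D) (v : V) : (nb G v).card ≤ D := by
  have h1 : nb G v = G.neighborFinset v := by
    ext u; simp [mem_nb]
  rw [h1]
  exact (G.degree_le_maxDegree v).trans h

/-- the numerical conditions on the number `n` of vertices -/
theorem eventually_cond (D : ℕ) (δ : ℝ) (hδ : 0 < δ) : ∀ᶠ n : ℕ in atTop,
    3 ≤ n ∧ 4 * (D : ℝ) + 8 ≤ (n : ℝ) ^ (1 / 3 : ℝ) ∧
    24 * (D : ℝ) * Real.log n ≤ (n : ℝ) ^ (1 / 3 : ℝ) ∧
    480 * (D : ℝ) * Real.log n ≤ (n : ℝ) ^ δ ∧
    100 * (8 * (D : ℝ) + 4) ≤ (n : ℝ) ^ δ ∧ 1 / δ ≤ Real.log n := by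
  have hD : (0 : ℝ) ≤ D := Nat.cast_nonneg D
  have hlog : ∀ (a c : ℝ), 0 < a → 0 < c →
      ∀ᶠ n : ℕ in atTop, c * Real.log n ≤ (n : ℝ) ^ a := by
    intro a c ha hc
    have h1 := (isLittleO_log_rpow_atTop ha).bound (show 0 < 1 / c by positivity)
    have h2 := tendsto_natCast_atTop_atTop (R := ℝ).eventually h1
    filter_upwards [h2, eventually_ge_atTop 1] with n hn hn1
    have h3 : (0 : ℝ) ≤ (n : ℝ) ^ a := by positivity
    rw [Real.norm_eq_abs, Real.norm_eq_abs, abs_of_nonneg h3] at hn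
    have h4 := (le_abs_self _).trans hn
    calc c * Real.log n ≤ c * (1 / c * (n : ℝ) ^ a) := by gcongr
      _ = (n : ℝ) ^ a := by field_simp
  have hpow : ∀ (a c : ℝ), 0 < a → ∀ᶠ n : ℕ in atTop, c ≤ (n : ℝ) ^ a := by
    intro a c ha
    exact (tendsto_natCast_atTop_atTop (R := ℝ)).eventually
      ((tendsto_rpow_atTop ha).eventually_ge_atTop c)
  have hlog2 : ∀ᶠ n : ℕ in atTop, 1 / δ ≤ Real.log n :=
    (tendsto_natCast_atTop_atTop (R := ℝ)).eventually (Real.tendsto_log_atTop.eventually_ge_atTop _)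
  filter_upwards [eventually_ge_atTop 3, hpow (1 / 3) (4 * (D : ℝ) + 8) (by norm_num),
    hlog (1 / 3) (24 * D + 1) (by norm_num) (by positivity),
    hlog δ (480 * D + 1) hδ (by positivity), hpow δ (100 * (8 * (D : ℝ) + 4)) hδ, hlog2]
    with n h1 h2 h3 h4 h5 h6
  have hL : 0 ≤ Real.log n := Real.log_nonneg (by exact_mod_cast (by omega : 1 ≤ n))
  refine ⟨h1, h2, ?_, ?_, h5, h6⟩
  · linarith
  · linarith

/-- **Non-monotonicity of the mixing time of Glauber dynamics for colourings in the number of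
colours.** For every `D` and every `ε > 0` there is `N` such that for every graph `G` on `n ≥ N`
vertices with maximum degree at most `D`:
* `t_G(q) < t_G(q + 1)` for some `q ≥ D + 2`;
* `t_G(q) ≤ (2/3 + ε) n log n` for the number of colours `q = ⌈n^(1/3)⌉ ≥ D + 2`, whereas
  `t_G(q') ≥ (1 - ε) n log n` for all `q' ≥ 8 n + D`. -/
theorem result : ∀ (D : ℕ) (ε : ℝ), 0 < ε → ∃ N : ℕ,
    ∀ (V : Type) [Fintype V] [DecidableEq V] (G : SimpleGraph V) [DecidableRel G.Adj],
      N ≤ Fintype.card V → G.maxDegree ≤ D →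
      (∃ q : ℕ, D + 2 ≤ q ∧ tmix G q < tmix G (q + 1)) ∧
      (∃ q : ℕ, D + 2 ≤ q ∧ q = ⌈(Fintype.card V : ℝ) ^ (1 / 3 : ℝ)⌉₊ ∧
        (tmix G q : ℝ) ≤ (2 / 3 + ε) * (Fintype.card V * Real.log (Fintype.card V)) ∧
        ∀ q' : ℕ, 8 * Fintype.card V + D ≤ q' →
          (1 - ε) * (Fintype.card V * Real.log (Fintype.card V)) ≤ (tmix G q' : ℝ)) := by
  intro D ε hε
  set δ : ℝ := min (ε / 2) (1 / 20) with hδdef
  have hδ : 0 < δ := by rw [hδdef]; positivity
  have hδε : 2 * δ ≤ ε := by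
    have : δ ≤ ε / 2 := min_le_left _ _
    linarith
  have hδ20 : δ ≤ 1 / 20 := min_le_right _ _
  obtain ⟨N, hN⟩ := eventually_atTop.mp (eventually_cond D δ hδ)
  refine ⟨N, ?_⟩
  intro V _ _ G _ hcard hdeg
  obtain ⟨h3, E1, E2, E3, E4, E5⟩ := hN (Fintype.card V) hcard
  have hD := nb_card G hdeg
  have hne : Nonempty V := Fintype.card_pos_iff.mp (by omega)
  generalize hn : Fintype.card V = n at *
  have hn3 : (3 : ℝ) ≤ n := by exact_mod_cast h3
  have hD0 : (0 : ℝ) ≤ D := Nat.cast_nonneg D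
  have hLδ : 1 ≤ δ * Real.log n := by
    have := mul_le_mul_of_nonneg_left E5 hδ.le
    rwa [mul_one_div_cancel hδ.ne'] at this
  have hL0 : 0 ≤ Real.log n := Real.log_nonneg (by linarith)
  have hnL0 : 0 ≤ (n : ℝ) * Real.log n := by positivity
  have hLpos : 0 < Real.log n := Real.log_pos (by linarith)
  have hδnL : (n : ℝ) ≤ δ * (n * Real.log n) := by
    calc (n : ℝ) = n * 1 := by ring
      _ ≤ n * (δ * Real.log n) := by gcongr
      _ = _ := by ring
  -- the small number of colours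
  set q : ℕ := ⌈(n : ℝ) ^ (1 / 3 : ℝ)⌉₊ with hq
  have hq1 : (n : ℝ) ^ (1 / 3 : ℝ) ≤ q := Nat.le_ceil _
  have hq2 : (q : ℝ) ≤ (n : ℝ) ^ (1 / 3 : ℝ) + 1 := (Nat.ceil_lt_add_one (by positivity)).le
  have hDq : D + 2 ≤ q := by
    have : (D : ℝ) + 2 ≤ q := by linarith
    exact_mod_cast this
  have hq0 : 0 < q := by omega
  have hDq2 : 2 * (D : ℝ) < q := by linarith
  set t : ℕ := ⌈(2 / 3 + δ) * n * Real.log n⌉₊ with ht
  have ht1 : (2 / 3 + δ) * n * Real.log n ≤ t := Nat.le_ceil _
  have ht2 : (t : ℝ) ≤ (2 / 3 + δ) * n * Real.log n + 1 :=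
    (Nat.ceil_lt_add_one (by positivity)).le
  have hup : tmix G q ≤ t := by
    apply tmix_le
    intro x
    have h1 := tv_upper hD hq0 hDq2 x t
    unfold th at h1
    rw [hn] at h1
    refine h1.trans ?_
    exact upper_num hδ (by linarith) h3 hq1 hq2 ht1 ht2 E1 E2 E3 E4
  have hup' : (tmix G q : ℝ) ≤ (2 / 3 + 2 * δ) * (n * Real.log n) := by
    have h1 : (tmix G q : ℝ) ≤ t := by exact_mod_cast hup
    have h2 : (1 : ℝ) ≤ δ * (n * Real.log n) := by linarith
    calc (tmix G q : ℝ) ≤ (2 / 3 + δ) * n * Real.log n + 1 := h1.trans ht2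
      _ ≤ (2 / 3 + δ) * n * Real.log n + δ * (n * Real.log n) := by linarith
      _ = _ := by ring
  -- the large numbers of colours
  have hlow : ∀ q' : ℕ, 8 * n + D ≤ q' →
      (1 - 2 * δ) * (n * Real.log n) ≤ (tmix G q' : ℝ) := by
    intro q' hq'
    have hq'r : 8 * (n : ℝ) + D ≤ q' := by exact_mod_cast hq'
    have hDn : (D : ℝ) ≤ n := by
      have h1 : (n : ℝ) ^ (1 / 3 : ℝ) ≤ (n : ℝ) ^ (1 : ℝ) :=
        Real.rpow_le_rpow_of_exponent_le (by linarith) (by norm_num)
      rw [Real.rpow_one] at h1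
      linarith
    have hx : Nonempty (PCol G q') := by
      have hle : Fintype.card V ≤ Fintype.card (Fin q') := by
        rw [Fintype.card_fin, hn]; omega
      obtain ⟨f⟩ := Function.Embedding.nonempty_of_card_le hle
      exact ⟨⟨f, fun u w huw => fun h => huw.ne (f.injective h)⟩⟩
    obtain ⟨x⟩ := hx
    have hlt : ⌊((n : ℝ) - 1) * Real.log (n / 2)⌋₊ < tmix G q' := by
      apply lt_tmix hD (by linarith) x
      intro s hs
      have hlog : 0 ≤ Real.log ((n : ℝ) / 2) := Real.log_nonneg (by linarith)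
      have hs' : (s : ℝ) ≤ ((n : ℝ) - 1) * Real.log (n / 2) := by
        calc (s : ℝ) ≤ (⌊((n : ℝ) - 1) * Real.log (n / 2)⌋₊ : ℝ) := by exact_mod_cast hs
          _ ≤ _ := Nat.floor_le (mul_nonneg (by linarith) hlog)
      obtain ⟨hp, hl⟩ := lower_num (d := (q' : ℝ) - D) h3 hs' (by linarith)
      refine lt_of_lt_of_le hl ?_
      have h1 := tv_lower hD (by omega) (by linarith) x s (by
        unfold th; rw [hn]; exact hp)
      unfold th at h1
      rw [hn] at h1
      exact h1
    have h1 : ((n : ℝ) - 1) * Real.log (n / 2) ≤ tmix G q' := by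
      have h2 := Nat.lt_floor_add_one (((n : ℝ) - 1) * Real.log (n / 2))
      have h3 : ((⌊((n : ℝ) - 1) * Real.log (n / 2)⌋₊ : ℕ) : ℝ) + 1 ≤ tmix G q' := by
        exact_mod_cast hlt
      linarith
    refine le_trans ?_ h1
    have h2 : Real.log ((n : ℝ) / 2) = Real.log n - Real.log 2 :=
      Real.log_div (by linarith) (by norm_num)
    rw [h2]
    have h4 : Real.log 2 ≤ 1 := by
      have := Real.log_two_lt_d9
      linarith
    have h5 : Real.log n ≤ n := by
      have := Real.log_le_sub_one_of_pos (show (0 : ℝ) < n by linarith)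
      linarith
    have h6 : ((n : ℝ) - 1) * (Real.log n - Real.log 2) =
        n * Real.log n - Real.log n - (n - 1) * Real.log 2 := by ring
    rw [h6]
    have h7 : ((n : ℝ) - 1) * Real.log 2 ≤ (n - 1) * 1 := by
      apply mul_le_mul_of_nonneg_left h4 (by linarith)
    nlinarith
  refine ⟨?_, q, hDq, rfl, ?_, ?_⟩
  · by_contra hcon
    push Not at hcon
    have hanti : ∀ q' : ℕ, q ≤ q' → tmix G q' ≤ tmix G q := by
      intro q' hq'
      induction q', hq' using Nat.le_induction with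
      | base => exact le_refl _
      | succ k hk ih => exact (hcon k (by omega)).trans ih
    have h1 := hanti (max q (8 * n + D)) (le_max_left _ _)
    have h2 := hlow (max q (8 * n + D)) (le_max_right _ _)
    have h4 : (tmix G (max q (8 * n + D)) : ℝ) ≤ tmix G q := by exact_mod_cast h1
    have h5 : (2 / 3 + 2 * δ) * ((n : ℝ) * Real.log n) < (1 - 2 * δ) * (n * Real.log n) := by
      apply mul_lt_mul_of_pos_right _ (by positivity)
      linarith
    linarith
  · refine hup'.trans ?_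
    apply mul_le_mul_of_nonneg_right _ hnL0
    linarith
  · intro q' hq'
    refine le_trans ?_ (hlow q' hq')
    apply mul_le_mul_of_nonneg_right _ hnL0
    linarith

end Pool.Agent.Results.MP_a221c1_pr.NotMonotone
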