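import Pool.Agent.H979R2.GlauberErgodic

set_option autoImplicit false

open Pool.Agent.H979R2.Glauber in
/-- On the (connected) path with four vertices there is a number of colours `q`, at least the
maximum degree plus two, such that the mixing time of Glauber dynamics is at most `8` with `q`
colours, and finite but larger than `8` with `q + 1` colours. -/
theorem Pool.Agent.Results.MP_a221c1_pr.PathFourNotMonotone.result :
    (SimpleGraph.pathGraph 4).Connected ∧
    ∃ q : ℕ, 7 ≤ q ∧ q < 500 ∧
      (∀ v, ((SimpleGraph.pathGraph 4).neighborSet v).ncard + 2 ≤ q) ∧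
      tmix (SimpleGraph.pathGraph 4) q ≤ 8 ∧
      8 < tmix (SimpleGraph.pathGraph 4) (q + 1) ∧
      tmix (SimpleGraph.pathGraph 4) (q + 1) ≠ ⊤ := by
  refine ⟨SimpleGraph.pathGraph_connected 3, ?_⟩
  by_contra hcon
  push Not at hcon
  have hdeg : ∀ v, ((SimpleGraph.pathGraph 4).neighborSet v).ncard ≤ 4 := by
    intro v
    calc ((SimpleGraph.pathGraph 4).neighborSet v).ncard ≤ (Set.univ : Set (Fin 4)).ncard :=
          Set.ncard_le_ncard (Set.subset_univ _) (Set.toFinite _)
      _ = 4 := by simp [Set.ncard_univ]
  have hmono : ∀ k : ℕ, k ≤ 493 → tmix (SimpleGraph.pathGraph 4) (7 + k) ≤ 8 := by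
    intro k
    induction k with
    | zero => exact fun _ => tmix_seven
    | succ k ih =>
      intro hk
      have h0 := ih (by omega)
      by_contra h2
      push Not at h2
      exact tmix_finite (7 + k + 1) (by omega)
        (hcon (7 + k) (by omega) (by omega) (fun v => by have := hdeg v; omega) h0 h2)
  have h1 := hmono 493 le_rfl
  have h2 := tmix_big
  norm_num at h1
  exact absurd (lt_of_lt_of_le h2 h1) (lt_irrefl _)
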